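import Mathlib

/-!
# Project CZ: the ratio of central to ordinary codimensions of matrix algebras (MP_aed2d0_al)

`δ_n = c_n - c_n^z`, `t n` the dimension of the space of the multilinear pure trace functions of `n`
matrices.  `δ_n ~ t n`, `c_n ~ t (n+1)`, `t n / t (n+1) → 1/k^2`; hence `c_n^z/c_n → 1 - 1/k^2`.
-/

set_option autoImplicit false

namespace Pool.Agent.N418.CZ

open Module

/-! ## The spaces of the frozen statement -/

/-- span of the functions `x ↦ x (σ 0) ⋯ x (σ (n-1))` -/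
noncomputable def PF (F : Type) [Field F] (k n : ℕ) :
    Submodule F ((Fin n → Matrix (Fin k) (Fin k) F) → Matrix (Fin k) (Fin k) F) :=
  Submodule.span F (Set.range (fun σ : Equiv.Perm (Fin n) =>
    fun x : Fin n → Matrix (Fin k) (Fin k) F => (List.ofFn (fun i => x (σ i))).prod))

/-- span of the same functions modulo the centre -/
noncomputable def ZF (F : Type) [Field F] (k n : ℕ) :
    Submodule F ((Fin n → Matrix (Fin k) (Fin k) F) → (Matrix (Fin k) (Fin k) F ⧸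
      (Subalgebra.toSubmodule (Subalgebra.center F (Matrix (Fin k) (Fin k) F))))) :=
  Submodule.span F (Set.range (fun σ : Equiv.Perm (Fin n) =>
    fun x : Fin n → Matrix (Fin k) (Fin k) F =>
      Submodule.mkQ (Subalgebra.toSubmodule (Subalgebra.center F (Matrix (Fin k) (Fin k) F)))
        (List.ofFn (fun i => x (σ i))).prod))

/-- (BC) the dimensions do not depend on the field of characteristic zero -/
def S_BC : Prop := ∀ (F : Type) [Field F] [CharZero F] (k n : ℕ), 1 ≤ k →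
  finrank F (PF F k n) = finrank ℝ (PF ℝ k n) ∧ finrank F (ZF F k n) = finrank ℝ (ZF ℝ k n)

/-! ## Definitions over the reals -/

/-- real matrices -/
abbrev Mk (k : ℕ) : Type := Matrix (Fin k) (Fin k) ℝ

/-- the trace monomial of the permutation `σ`: the product over the cycles `(a b … c)` of `σ` of
`trace (x a * x b * ⋯ * x c)`, written as a sum over the indices -/
noncomputable def tr {k : ℕ} {ι : Type} [Fintype ι] [DecidableEq ι] (σ : Equiv.Perm ι)
    (x : ι → Mk k) : ℝ := ∑ i : ι → Fin k, ∏ s, x s (i s) (i (σ s))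

/-- the multilinear pure trace functions of the variables `ι` -/
noncomputable def T (k : ℕ) (ι : Type) [Fintype ι] [DecidableEq ι] :
    Submodule ℝ ((ι → Mk k) → ℝ) := Submodule.span ℝ (Set.range (tr (k := k) (ι := ι)))

/-- the dimension of `T k (Fin n)` -/
noncomputable def t (k n : ℕ) : ℕ := finrank ℝ (T k (Fin n))

/-- matrix polynomials: span of the monomials whose multiset of letters is `s` -/
noncomputable def PolM (k : ℕ) (α : Type) (s : Multiset α) : Submodule ℝ ((α → Mk k) → Mk k) :=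
  Submodule.span ℝ {f | ∃ l : List α, (l : Multiset α) = s ∧ f = fun x => (l.map x).prod}

/-- multilinear matrix polynomials in the variables `ι` -/
noncomputable def Pol (k : ℕ) (ι : Type) [Fintype ι] : Submodule ℝ ((ι → Mk k) → Mk k) :=
  PolM k ι (Finset.univ : Finset ι).val

/-- `φ ↦ (x ↦ φ x • 1)` -/
noncomputable def scal (k : ℕ) (ι : Type) : ((ι → Mk k) → ℝ) →ₗ[ℝ] ((ι → Mk k) → Mk k) where
  toFun φ := fun x => φ x • (1 : Mk k)
  map_add' a b := by funext x; simp [add_smul]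
  map_smul' c a := by funext x; simp [mul_smul]

/-- the scalar functions `φ` such that `φ • 1` is a multilinear (central) polynomial -/
noncomputable def I (k : ℕ) (ι : Type) [Fintype ι] : Submodule ℝ ((ι → Mk k) → ℝ) :=
  (Pol k ι).comap (scal k ι)

/-- `f ↦ ((x, z) ↦ trace (f x * z))`, `z` the last variable -/
noncomputable def trz (k n : ℕ) :
    ((Fin n → Mk k) → Mk k) →ₗ[ℝ] ((Fin (n + 1) → Mk k) → ℝ) where
  toFun f := fun x => (f (fun i => x i.castSucc) * x (Fin.last n)).trace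
  map_add' a b := by funext x; simp [add_mul]
  map_smul' c a := by funext x; simp

/-- the image of the multilinear polynomials in the trace functions of one more variable -/
noncomputable def Im (k n : ℕ) : Submodule ℝ ((Fin (n + 1) → Mk k) → ℝ) :=
  (Pol k (Fin n)).map (trz k n)

/-! ## Elementary facts -/

/-- (CEN) `c_n^z + δ_n = c_n` -/
def S_CEN : Prop := ∀ k n : ℕ, 1 ≤ k →
  finrank ℝ (ZF ℝ k n) + finrank ℝ (I k (Fin n)) = finrank ℝ (PF ℝ k n)

/-- (IT) the trace of a monomial is a trace monomial -/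
def S_IT : Prop := ∀ (k : ℕ) (ι : Type) [Fintype ι] [DecidableEq ι], 1 ≤ k → I k ι ≤ T k ι

/-- (CT) `c_n = dim (Im k n)` and `Im k n` consists of pure trace functions -/
def S_CT : Prop := ∀ k n : ℕ, 1 ≤ k →
  finrank ℝ (Im k n) = finrank ℝ (PF ℝ k n) ∧ Im k n ≤ T k (Fin (n + 1))

/-- (RE) reindexing -/
def S_RE : Prop := ∀ (k : ℕ) (ι κ : Type) [Fintype ι] [DecidableEq ι] [Fintype κ] [DecidableEq κ]
  (e : ι ≃ κ), (∀ φ ∈ T k κ, (fun x : ι → Mk k => φ (fun a => x (e.symm a))) ∈ T k ι) ∧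
    finrank ℝ (T k ι) = finrank ℝ (T k κ)

/-- (MUL) products in disjoint variables -/
def S_MUL : Prop := ∀ (k : ℕ) (ι κ : Type) [Fintype ι] [DecidableEq ι] [Fintype κ] [DecidableEq κ],
  ∀ φ ∈ T k ι, ∀ ψ ∈ T k κ,
    (fun x : ι ⊕ κ → Mk k => φ (fun a => x (Sum.inl a)) * ψ (fun a => x (Sum.inr a))) ∈ T k (ι ⊕ κ)

/-- (ONE) a variable may be replaced by the unit matrix -/
def S_ONE : Prop := ∀ (k : ℕ) (ι : Type) [Fintype ι] [DecidableEq ι], ∀ φ ∈ T k (Option ι),
  (fun x : ι → Mk k => φ (fun o => o.elim 1 x)) ∈ T k ι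

/-- the tuple of the matrix units `E_{a s, b s}` -/
noncomputable def EE {k : ℕ} {ι : Type} (a b : ι → Fin k) : ι → Mk k :=
  fun s => Matrix.single (a s) (b s) 1

/-- (CON) contraction with a trace function of some of the variables -/
def S_CON : Prop := ∀ (k : ℕ) (ι κ : Type) [Fintype ι] [DecidableEq ι] [Fintype κ] [DecidableEq κ],
  ∀ D ∈ T k ι, ∀ Φ ∈ T k (ι ⊕ κ),
    (fun y : κ → Mk k => ∑ a : ι → Fin k, ∑ b : ι → Fin k, D (EE a b) * Φ (Sum.elim (EE a b) y))
      ∈ T k κ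

/-! ## Trace functions of a subset of the variables `Fin N` -/

/-- the trace functions of the variables in `S`, as functions of all the `N` variables -/
noncomputable def TS (k N : ℕ) (S : Finset (Fin N)) : Submodule ℝ ((Fin N → Mk k) → ℝ) :=
  (T k S).map (LinearMap.funLeft ℝ ℝ (fun (x : Fin N → Mk k) (s : S) => x s))

/-- multiplication by `D`, applied to the variables `e 0, …, e (m-1)` -/
noncomputable def mulD {k m N : ℕ} (D : (Fin m → Mk k) → ℝ) (e : Fin m → Fin N) :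
    ((Fin N → Mk k) → ℝ) →ₗ[ℝ] ((Fin N → Mk k) → ℝ) where
  toFun φ := fun x => D (fun s => x (e s)) * φ x
  map_add' a b := by funext x; simp [mul_add]
  map_smul' c a := by funext x; simp; ring

/-- contraction with `D` of the variables `e 0, …, e (m-1)`, normalised -/
noncomputable def conD {k m N : ℕ} (D : (Fin m → Mk k) → ℝ) (e : Fin m → Fin N) :
    ((Fin N → Mk k) → ℝ) →ₗ[ℝ] ((Fin N → Mk k) → ℝ) where
  toFun φ := fun x => (∑ a : Fin m → Fin k, ∑ b : Fin m → Fin k, D (EE a b) ^ 2)⁻¹ *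
    ∑ a : Fin m → Fin k, ∑ b : Fin m → Fin k, D (EE a b) * φ (Function.extend e (EE a b) x)
  map_add' a b := by
    funext x
    simp only [Pi.add_apply, mul_add, Finset.sum_add_distrib]
  map_smul' c a := by
    funext x
    simp only [Pi.smul_apply, smul_eq_mul, RingHom.id_apply, Finset.mul_sum]
    refine Finset.sum_congr rfl fun i _ => Finset.sum_congr rfl fun j _ => ?_
    ring

/-- (TSA) dimension of `TS`, multiplication by `D`, contraction with `D` -/
def S_TSA : Prop := ∀ (k m N : ℕ) (D : (Fin m → Mk k) → ℝ), D ∈ T k (Fin m) →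
  (∀ S : Finset (Fin N), FiniteDimensional ℝ (TS k N S) ∧ finrank ℝ (TS k N S) = t k S.card) ∧
  (∀ (e : Fin m → Fin N) (S : Finset (Fin N)), Function.Injective e → (∀ s, e s ∈ S) →
    ∀ φ ∈ TS k N (S \ Finset.univ.image e), mulD D e φ ∈ TS k N S) ∧
  (∀ (e : Fin m → Fin N) (S : Finset (Fin N)), Function.Injective e → (∀ s, e s ∈ S) →
    ∀ φ ∈ TS k N S, conD D e φ ∈ TS k N (S \ Finset.univ.image e))

/-- (TSB) `conD` is a left inverse of `mulD`, and both commute with `mulD` of other variables -/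
def S_TSB : Prop := ∀ (k m N : ℕ) (D : (Fin m → Mk k) → ℝ), D ∈ T k (Fin m) → D ≠ 0 →
  (∀ (e : Fin m → Fin N) (S : Finset (Fin N)), Function.Injective e → (∀ s, e s ∉ S) →
    ∀ φ ∈ TS k N S, conD D e (mulD D e φ) = φ) ∧
  (∀ e e' : Fin m → Fin N, Function.Injective e → Function.Injective e' →
    (∀ s s', e s ≠ e' s') → ∀ φ, conD D e (mulD D e' φ) = mulD D e' (conD D e φ)) ∧
  (∀ e e' : Fin m → Fin N, ∀ φ, mulD D e (mulD D e' φ) = mulD D e' (mulD D e φ))

/-! ## The dimension of a sum of ideals in independent variables -/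

/-- `w t m r n = ∑_j (-1)^j C(r,j) t (n - j m)` -/
def w (t : ℕ → ℝ) (m : ℕ) : ℕ → ℕ → ℝ
  | 0, n => t n
  | r + 1, n => w t m r n - w t m r (n - m)

/-- (FREE) -/
def S_FREE : Prop := ∀ (E : Type) [AddCommGroup E] [Module ℝ E] (α β : Type) [DecidableEq α]
  [DecidableEq β] (V : Finset α → Submodule ℝ E) (d : ℕ → ℕ) (m : ℕ) (B : β → Finset α)
  (μ κ : β → E →ₗ[ℝ] E),
  (∀ S, FiniteDimensional ℝ (V S) ∧ finrank ℝ (V S) = d S.card) →
  (∀ j, (B j).card = m) → (∀ i j, i ≠ j → Disjoint (B i) (B j)) →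
  (∀ j S, B j ⊆ S → ∀ φ ∈ V (S \ B j), μ j φ ∈ V S) →
  (∀ j S, B j ⊆ S → ∀ φ ∈ V S, κ j φ ∈ V (S \ B j)) →
  (∀ j S, Disjoint S (B j) → ∀ φ ∈ V S, κ j (μ j φ) = φ) →
  (∀ i j, i ≠ j → ∀ φ, κ j (μ i φ) = μ i (κ j φ)) →
  (∀ i j φ, μ i (μ j φ) = μ j (μ i φ)) →
  ∀ (J : Finset β) (S : Finset α), (∀ j ∈ J, B j ⊆ S) →
    (⨆ j ∈ J, (V (S \ B j)).map (μ j)) ≤ V S ∧
    (finrank ℝ (⨆ j ∈ J, (V (S \ B j)).map (μ j) : Submodule ℝ E) : ℝ) =
      d S.card - w (fun n => (d n : ℝ)) m J.card S.card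

/-! ## Polynomials which remain polynomials after multiplication by traces -/

/-- `f` vanishes if two of the variables `X i` are equal -/
def AltIn {k : ℕ} {α : Type} (X : Fin (k * k) → α) (f : (α → Mk k) → Mk k) : Prop :=
  ∀ (x : α → Mk k) (i j : Fin (k * k)), i ≠ j → x (X i) = x (X j) → f x = 0

/-- (TRC) the product of an alternating polynomial with the trace of a word is a polynomial -/
def S_TRC : Prop := ∀ (k : ℕ) (α : Type) [DecidableEq α] (X : Fin (k * k) → α), 1 ≤ k →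
  Function.Injective X → ∀ s : Multiset α, (∀ i, s.count (X i) = 1) → ∀ f ∈ PolM k α s, AltIn X f →
    ∀ l : List α, (fun x : α → Mk k => ((l.map x).prod).trace • f x) ∈ PolM k α (↑l + s)

/-- (RAZ) a central polynomial which is alternating in `k^2` variables (Razmyslov) -/
def S_RAZ : Prop := ∀ k : ℕ, 1 ≤ k → ∃ (n : ℕ) (X : Fin (k * k) → Fin n)
  (f : (Fin n → Mk k) → Mk k), Function.Injective X ∧ f ∈ Pol k (Fin n) ∧ f ≠ 0 ∧ AltIn X f ∧
    ∀ x, ∃ c : ℝ, f x = c • (1 : Mk k)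

/-- (WP) a trace monomial is a product of traces of words -/
def S_WP : Prop := ∀ (k : ℕ) (ι : Type) [Fintype ι] [DecidableEq ι] (σ : Equiv.Perm ι),
  ∃ L : List (List ι), (L.flatten : Multiset ι) = (Finset.univ : Finset ι).val ∧
    ∀ x : ι → Mk k, tr σ x = (L.map fun l => ((l.map x).prod).trace).prod

/-- (DD) the function `D` -/
def S_DD : Prop := ∀ k : ℕ, 1 ≤ k → ∃ (m : ℕ) (D : (Fin m → Mk k) → ℝ), D ∈ T k (Fin m) ∧ D ≠ 0 ∧
  ∀ (ι : Type) [Fintype ι] [DecidableEq ι], ∀ ψ ∈ T k (Option ι), ∃ f ∈ Pol k (Fin m ⊕ ι),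
    ∀ (x : Fin m ⊕ ι → Mk k) (z : Mk k), (f x * z).trace =
      D (fun s => x (Sum.inl s)) * ψ (fun o => o.elim z (fun a => x (Sum.inr a)))

/-- the block number `j` of length `m` in `Fin N` -/
def blk (m r N : ℕ) (h : r * m ≤ N) (j : Fin r) (s : Fin m) : Fin N :=
  ⟨j * m + s, by
    have h1 : (j : ℕ) * m + m ≤ r * m := by
      have := Nat.mul_le_mul_right m (Nat.succ_le_of_lt j.2)
      rw [Nat.succ_mul] at this
      exact this
    have := s.2
    omega⟩

/-- (LOW) lower bounds for the spaces `I` and `Im` -/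
def S_LOW : Prop := ∀ (k m : ℕ) (D : (Fin m → Mk k) → ℝ), 1 ≤ k →
  (∀ (ι : Type) [Fintype ι] [DecidableEq ι], ∀ ψ ∈ T k (Option ι), ∃ f ∈ Pol k (Fin m ⊕ ι),
    ∀ (x : Fin m ⊕ ι → Mk k) (z : Mk k), (f x * z).trace =
      D (fun s => x (Sum.inl s)) * ψ (fun o => o.elim z (fun a => x (Sum.inr a)))) →
  ∀ n : ℕ,
    (∀ e : Fin m → Fin n, Function.Injective e →
      (TS k n (Finset.univ \ Finset.univ.image e)).map (mulD D e) ≤ I k (Fin n)) ∧
    (∀ e : Fin m → Fin (n + 1), Function.Injective e → (∀ s, e s ≠ Fin.last n) →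
      (TS k (n + 1) (Finset.univ \ Finset.univ.image e)).map (mulD D e) ≤ Im k n)

/-! ## The algebra generated by the permutations on the tensor power -/

/-- the matrix of the permutation `σ` on `(ℝ^k)^{⊗n}` -/
noncomputable def Pi {k n : ℕ} (σ : Equiv.Perm (Fin n)) :
    Matrix (Fin n → Fin k) (Fin n → Fin k) ℝ :=
  Matrix.of fun a b => if b = (fun i => a (σ i)) then 1 else 0

/-- the span of the permutation matrices -/
noncomputable def A (k n : ℕ) : Submodule ℝ (Matrix (Fin n → Fin k) (Fin n → Fin k) ℝ) :=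
  Submodule.span ℝ (Set.range (Pi (k := k) (n := n)))

/-- (AT) -/
def S_AT : Prop := ∀ k n : ℕ, t k n = finrank ℝ (A k n)

/-- `Perm (Fin n) → Perm (Fin (n+1))`, fixing the last point -/
noncomputable def ext1 {n : ℕ} (σ : Equiv.Perm (Fin n)) : Equiv.Perm (Fin (n + 1)) :=
  (finSuccEquivLast (n := n)).permCongr.symm (Equiv.optionCongr σ)

/-- trace of the operator (left multiplication by `M`) on a subspace `V` which it preserves
(the value is junk otherwise) -/
noncomputable def ltrace {J : Type} [Fintype J] [DecidableEq J] (V : Submodule ℝ (Matrix J J ℝ))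
    (M : Matrix J J ℝ) : ℝ := by
  classical
  exact if h : ∀ a ∈ V, M * a ∈ V then
    LinearMap.trace ℝ V ((LinearMap.mulLeft ℝ M).restrict h) else 0

/-- (CH1) `avg χ_n^2 ≤ t n` -/
def S_CH1 : Prop := ∀ k n : ℕ,
  (∑ g : Equiv.Perm (Fin n), ltrace (A k n) (Pi g) ^ 2) / (n.factorial : ℝ) ≤ finrank ℝ (A k n)

/-- (CH2) `t (n+1) ≤ avg χ_n χ_{n+1}` -/
def S_CH2 : Prop := ∀ k n : ℕ, (finrank ℝ (A k (n + 1)) : ℝ) ≤
  (∑ g : Equiv.Perm (Fin n), ltrace (A k n) (Pi g) * ltrace (A k (n + 1)) (Pi (ext1 g))) /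
    (n.factorial : ℝ)

/-- (CH3) `avg χ_{n+1}^2 ≤ t (n+2)` -/
def S_CH3 : Prop := ∀ k n : ℕ,
  (∑ g : Equiv.Perm (Fin n), ltrace (A k (n + 1)) (Pi (ext1 g)) ^ 2) / (n.factorial : ℝ) ≤
    finrank ℝ (A k (n + 2))

/-- (LC) log-convexity -/
def S_LC : Prop := ∀ k n : ℕ, 1 ≤ k → t k (n + 1) ^ 2 ≤ t k n * t k (n + 2)

/-- (GR) growth -/
def S_GR : Prop := ∀ k n : ℕ, 1 ≤ k →
  k ^ (2 * n) ≤ (n + 1) ^ (k * k) * finrank ℝ (A k n) ∧ finrank ℝ (A k n) ≤ k ^ (2 * n)

/-! ## Limits -/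

/-- (RAT) -/
def S_RAT : Prop := ∀ (t : ℕ → ℝ) (q : ℝ) (m : ℕ), 1 ≤ q → (∀ n, 0 < t n) →
  (∀ n, t (n + 1) ^ 2 ≤ t n * t (n + 2)) → (∀ n : ℕ, q ^ n ≤ ((n : ℝ) + 1) ^ m * t n) →
  (∀ n, t n ≤ q ^ n) → Filter.Tendsto (fun n => t n / t (n + 1)) Filter.atTop (nhds (1 / q))

/-- (LIM) -/
def S_LIM : Prop := ∀ (t δ c : ℕ → ℝ) (q : ℝ) (m : ℕ), 0 < q → q ≤ 1 → (∀ n, 0 < t n) →
  Filter.Tendsto (fun n => t n / t (n + 1)) Filter.atTop (nhds q) →
  (∀ n, δ n ≤ t n) → (∀ n, c n ≤ t (n + 1)) →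
  (∀ r n, r * m ≤ n → t n - w t m r n ≤ δ n) →
  (∀ r n, r * m ≤ n → t (n + 1) - w t m r (n + 1) ≤ c n) →
  Filter.Tendsto (fun n => (c n - δ n) / c n) Filter.atTop (nhds (1 - q))

end Pool.Agent.N418.CZ
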