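import Pool.Agent.N418.CZ.Stm

set_option autoImplicit false

namespace Pool.Agent.N418.CZ

open Module

theorem T_fd (k : ℕ) (ι : Type) [Fintype ι] [DecidableEq ι] : FiniteDimensional ℝ (T k ι) := by
  unfold T
  exact FiniteDimensional.span_of_finite ℝ (Set.finite_range _)

theorem blk_inj (m r N : ℕ) (h : r * m ≤ N) (j : Fin r) : Function.Injective (blk m r N h j) := by
  intro s s' hs
  have h1 : (blk m r N h j s).val = (blk m r N h j s').val := by rw [hs]
  simp only [blk] at h1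
  exact Fin.ext (by omega)

theorem blk_ne (m r N : ℕ) (h : r * m ≤ N) (i j : Fin r) (hij : i ≠ j) (s s' : Fin m) :
    blk m r N h i s ≠ blk m r N h j s' := by
  intro hs
  apply hij
  have h1 : (blk m r N h i s).val = (blk m r N h j s').val := by rw [hs]
  simp only [blk] at h1
  have hs1 := s.2
  have hs2 := s'.2
  apply Fin.ext
  have hm : 0 < m := by omega
  have e1 : (i.val * m + s.val) / m = i.val := by
    rw [Nat.add_comm, Nat.add_mul_div_right _ _ hm, Nat.div_eq_of_lt hs1, Nat.zero_add]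
  have e2 : (j.val * m + s'.val) / m = j.val := by
    rw [Nat.add_comm, Nat.add_mul_div_right _ _ hm, Nat.div_eq_of_lt hs2, Nat.zero_add]
  rw [← e1, ← e2, h1]

theorem blk_ne_last (m r n : ℕ) (h : r * m ≤ n + 1) (h' : r * m ≤ n) (j : Fin r) (s : Fin m) :
    blk m r (n + 1) h j s ≠ Fin.last n := by
  intro hs
  have h1 : (blk m r (n + 1) h j s).val = n := by rw [hs]; rfl
  simp only [blk] at h1
  have h2 : (j : ℕ) * m + m ≤ r * m := by
    have := Nat.mul_le_mul_right m (Nat.succ_le_of_lt j.2)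
    rw [Nat.succ_mul] at this
    exact this
  have := s.2
  omega

/-- the dimension of the sum of the ideals -/
theorem dim_sum (hTSA : S_TSA) (hTSB : S_TSB) (hFREE : S_FREE) (k m : ℕ)
    (D : (Fin m → Mk k) → ℝ) (hD : D ∈ T k (Fin m)) (hD0 : D ≠ 0) (r N : ℕ) (h : r * m ≤ N) :
    (finrank ℝ (⨆ j ∈ (Finset.univ : Finset (Fin r)),
      (TS k N (Finset.univ \ Finset.univ.image (blk m r N h j))).map (mulD D (blk m r N h j)) :
        Submodule ℝ ((Fin N → Mk k) → ℝ)) : ℝ) =
      (t k N : ℝ) - w (fun n => (t k n : ℝ)) m r N := by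
  obtain ⟨a1, a2, a3⟩ := hTSA k m N D hD
  obtain ⟨b1, b2, b3⟩ := hTSB k m N D hD hD0
  have key := hFREE ((Fin N → Mk k) → ℝ) (Fin N) (Fin r) (TS k N) (t k) m
    (fun j => Finset.univ.image (blk m r N h j)) (fun j => mulD D (blk m r N h j))
    (fun j => conD D (blk m r N h j)) a1
    (fun j => by
      rw [Finset.card_image_of_injective _ (blk_inj m r N h j), Finset.card_univ, Fintype.card_fin])
    (fun i j hij => by
      rw [Finset.disjoint_left]
      intro x hx hx'
      simp only [Finset.mem_image, Finset.mem_univ, true_and] at hx hx'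
      obtain ⟨s, hs⟩ := hx
      obtain ⟨s', hs'⟩ := hx'
      exact blk_ne m r N h i j hij s s' (hs.trans hs'.symm))
    (fun j S hS φ hφ => a2 _ S (blk_inj m r N h j)
      (fun s => hS (Finset.mem_image_of_mem _ (Finset.mem_univ s))) φ hφ)
    (fun j S hS φ hφ => a3 _ S (blk_inj m r N h j)
      (fun s => hS (Finset.mem_image_of_mem _ (Finset.mem_univ s))) φ hφ)
    (fun j S hS φ hφ => b1 _ S (blk_inj m r N h j)
      (fun s hs => (Finset.disjoint_left.mp hS hs) (Finset.mem_image_of_mem _ (Finset.mem_univ s)))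
      φ hφ)
    (fun i j hij φ => b2 _ _ (blk_inj m r N h j) (blk_inj m r N h i)
      (fun s s' => blk_ne m r N h j i hij.symm s s') φ)
    (fun i j φ => b3 _ _ φ)
    Finset.univ Finset.univ (fun j _ => Finset.subset_univ _)
  have := key.2
  simpa [Finset.card_univ, Fintype.card_fin] using this

theorem main_real (hCEN : S_CEN) (hIT : S_IT) (hCT : S_CT) (hTSA : S_TSA) (hTSB : S_TSB)
    (hFREE : S_FREE) (hDD : S_DD) (hLOW : S_LOW) (hAT : S_AT) (hLC : S_LC) (hGR : S_GR)
    (hRAT : S_RAT) (hLIM : S_LIM) (k : ℕ) (hk : 1 ≤ k) :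
    Filter.Tendsto (fun n : ℕ => (finrank ℝ (ZF ℝ k n) : ℝ) / (finrank ℝ (PF ℝ k n) : ℝ))
      Filter.atTop (nhds (1 - 1 / ((k : ℝ) ^ 2))) := by
  have hk0 : (0 : ℝ) < k := by exact_mod_cast hk
  have hk1 : (1 : ℝ) ≤ k := by exact_mod_cast hk
  have htpos : ∀ n, 0 < (t k n : ℝ) := by
    intro n
    have h1 := (hGR k n hk).1
    rw [← hAT k n] at h1
    have h2 : 0 < k ^ (2 * n) := Nat.pow_pos (by omega)
    have h3 : 0 < (n + 1) ^ (k * k) * t k n := lt_of_lt_of_le h2 h1
    exact_mod_cast Nat.pos_of_mul_pos_left h3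
  have hrat : Filter.Tendsto (fun n => (t k n : ℝ) / (t k (n + 1) : ℝ)) Filter.atTop
      (nhds (1 / ((k : ℝ) ^ 2))) := by
    refine hRAT (fun n => (t k n : ℝ)) ((k : ℝ) ^ 2) (k * k) (one_le_pow₀ hk1) htpos ?_ ?_ ?_
    · intro n
      exact_mod_cast hLC k n hk
    · intro n
      have h1 := (hGR k n hk).1
      rw [← hAT k n] at h1
      have h2 : ((k ^ (2 * n) : ℕ) : ℝ) ≤ (((n + 1) ^ (k * k) * t k n : ℕ) : ℝ) := by
        exact_mod_cast h1
      push_cast at h2
      rw [← pow_mul]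
      exact h2
    · intro n
      have h1 := (hGR k n hk).2
      rw [← hAT k n] at h1
      have h2 : ((t k n : ℕ) : ℝ) ≤ ((k ^ (2 * n) : ℕ) : ℝ) := by
        exact_mod_cast h1
      push_cast at h2
      rw [← pow_mul]
      exact h2
  obtain ⟨m, D, hD, hD0, hDf⟩ := hDD k hk
  have hfdT := fun n => T_fd k (Fin n)
  have hIle : ∀ n, I k (Fin n) ≤ T k (Fin n) := fun n => hIT k (Fin n) hk
  have hfdI : ∀ n, FiniteDimensional ℝ (I k (Fin n)) := fun n =>
    Submodule.finiteDimensional_of_le (hIle n)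
  have hfdIm : ∀ n, FiniteDimensional ℝ (Im k n) := fun n =>
    Submodule.finiteDimensional_of_le (hCT k n hk).2
  have hlim := hLIM (fun n => (t k n : ℝ)) (fun n => (finrank ℝ (I k (Fin n)) : ℝ))
    (fun n => (finrank ℝ (PF ℝ k n) : ℝ)) (1 / ((k : ℝ) ^ 2)) m (by positivity)
    (by
      rw [div_le_one (by positivity)]
      exact one_le_pow₀ hk1) htpos hrat
    (fun n => by
      have := hfdT n
      exact_mod_cast Submodule.finrank_mono (hIle n))
    (fun n => by
      have := hfdT (n + 1)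
      have h1 := Submodule.finrank_mono (hCT k n hk).2
      rw [(hCT k n hk).1] at h1
      exact_mod_cast h1)
    (fun r n h => by
      have h1 := dim_sum hTSA hTSB hFREE k m D hD hD0 r n h
      rw [← h1]
      have := hfdI n
      have h2 : (⨆ j ∈ (Finset.univ : Finset (Fin r)),
          (TS k n (Finset.univ \ Finset.univ.image (blk m r n h j))).map (mulD D (blk m r n h j)) :
            Submodule ℝ ((Fin n → Mk k) → ℝ)) ≤ I k (Fin n) := by
        refine iSup_le fun j => iSup_le fun _ => ?_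
        exact (hLOW k m D hk hDf n).1 _ (blk_inj m r n h j)
      exact_mod_cast Submodule.finrank_mono h2)
    (fun r n h => by
      have h' : r * m ≤ n + 1 := Nat.le_succ_of_le h
      have h1 := dim_sum hTSA hTSB hFREE k m D hD hD0 r (n + 1) h'
      rw [← h1]
      have := hfdIm n
      have h2 : (⨆ j ∈ (Finset.univ : Finset (Fin r)),
          (TS k (n + 1) (Finset.univ \ Finset.univ.image (blk m r (n + 1) h' j))).map
            (mulD D (blk m r (n + 1) h' j)) :
            Submodule ℝ ((Fin (n + 1) → Mk k) → ℝ)) ≤ Im k n := by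
        refine iSup_le fun j => iSup_le fun _ => ?_
        exact (hLOW k m D hk hDf n).2 _ (blk_inj m r (n + 1) h' j)
          (fun s => blk_ne_last m r n h' h j s)
      have h3 := Submodule.finrank_mono h2
      rw [(hCT k n hk).1] at h3
      exact_mod_cast h3)
  refine hlim.congr fun n => ?_
  have h1 := hCEN k n hk
  have h2 : (finrank ℝ (PF ℝ k n) : ℝ) = finrank ℝ (ZF ℝ k n) + finrank ℝ (I k (Fin n)) := by
    exact_mod_cast h1.symm
  congr 1
  rw [h2]
  ring

theorem main_all (hBC : S_BC) (hCEN : S_CEN) (hIT : S_IT) (hCT : S_CT) (hTSA : S_TSA)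
    (hTSB : S_TSB) (hFREE : S_FREE) (hDD : S_DD) (hLOW : S_LOW) (hAT : S_AT) (hLC : S_LC)
    (hGR : S_GR) (hRAT : S_RAT) (hLIM : S_LIM) (F : Type) [Field F] [CharZero F] (k : ℕ)
    (hk : 1 ≤ k) :
    Filter.Tendsto (fun n : ℕ => (finrank F (ZF F k n) : ℝ) / (finrank F (PF F k n) : ℝ))
      Filter.atTop (nhds (1 - 1 / ((k : ℝ) ^ 2))) := by
  have h := main_real hCEN hIT hCT hTSA hTSB hFREE hDD hLOW hAT hLC hGR hRAT hLIM k hk
  refine h.congr fun n => ?_
  rw [(hBC F k n hk).1, (hBC F k n hk).2]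

/-- the frozen statement -/
theorem frozen (hBC : S_BC) (hCEN : S_CEN) (hIT : S_IT) (hCT : S_CT) (hTSA : S_TSA)
    (hTSB : S_TSB) (hFREE : S_FREE) (hDD : S_DD) (hLOW : S_LOW) (hAT : S_AT) (hLC : S_LC)
    (hGR : S_GR) (hRAT : S_RAT) (hLIM : S_LIM) :
    ∀ (F : Type) [Field F] [CharZero F] (k : ℕ), 1 ≤ k →
      ∃ α : ℝ, 0 ≤ α ∧ α ≤ 1 ∧
        Filter.Tendsto (fun n : ℕ =>
          (Module.finrank F (Submodule.span F (Set.range (fun σ : Equiv.Perm (Fin n) =>
              fun x : Fin n → Matrix (Fin k) (Fin k) F =>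
                Submodule.mkQ (Subalgebra.toSubmodule (Subalgebra.center F (Matrix (Fin k) (Fin k) F)))
                  (List.ofFn (fun i => x (σ i))).prod))) : ℝ) /
          (Module.finrank F (Submodule.span F (Set.range (fun σ : Equiv.Perm (Fin n) =>
              fun x : Fin n → Matrix (Fin k) (Fin k) F =>
                (List.ofFn (fun i => x (σ i))).prod))) : ℝ))
          Filter.atTop (nhds α) := by
  intro F _ _ k hk
  have hk1 : (1 : ℝ) ≤ (k : ℝ) ^ 2 := one_le_pow₀ (by exact_mod_cast hk)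
  have h1 : 1 / (k : ℝ) ^ 2 ≤ 1 := by
    rw [div_le_one (by linarith)]
    exact hk1
  have h2 : 0 ≤ 1 / (k : ℝ) ^ 2 := by positivity
  exact ⟨1 - 1 / (k : ℝ) ^ 2, by linarith, by linarith,
    main_all hBC hCEN hIT hCT hTSA hTSB hFREE hDD hLOW hAT hLC hGR hRAT hLIM F k hk⟩

end Pool.Agent.N418.CZ
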